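import Mathlib
import Pool.Agent.Lib.MP_1644e0_gt.Top

/-!
# A D-separable Cantor cube without a sigma-disjoint pi-base

The definitions `IsDSeparable`, `IsPiBase` and `IsSigmaDisjoint` are in
`Pool/Agent/Lib/MP_1644e0_gt/Defs.lean`.
-/

open Set Topology Pool.Agent.Lib.MP_1644e0_gt

namespace Pool.Agent.Results.MP_1644e0_gt.CantorCube

universe u

/-- There is a compact Hausdorff space, namely a Cantor cube `2 ^ L`, which is D-separable but has
no sigma-disjoint pi-base. -/
theorem result : ∃ L : Type u, CompactSpace (L → Bool) ∧ T2Space (L → Bool) ∧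
    IsDSeparable (L → Bool) ∧
    ¬ ∃ 𝓑 : Set (Set (L → Bool)), IsPiBase 𝓑 ∧ IsSigmaDisjoint 𝓑 :=
  ⟨Lam.{u}, inferInstance, inferInstance, dSeparable_Lam,
    no_sigmaDisjoint_piBase uncountable_Lam⟩

end Pool.Agent.Results.MP_1644e0_gt.CantorCube
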